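import Pool.Agent.Helper11.PC.Defs

/-! # Project PC, packet DERF -/

namespace Pool.Agent.Helper87.PC

open Pool.Agent.Helper11.PC Pool.Agent.Helper28.Para

open scoped commutatorElement

universe u v

theorem derf {X : Type v} {R : Type u} [Ring R] (hder : FreeDer X R) (J : Ideal R)
    [J.IsTwoSided] (q : ℕ) (hJ : J ^ q = ⊥) (θ : FreeGroup X →* R) (hθ : ∀ g, θ g - 1 ∈ J)
    (lam : X → R) :
    ∃ δ : FreeGroup X → R, (∀ x, δ (FreeGroup.of x) = lam x) ∧
      (∀ g h, δ (g * h) = δ g + θ g * δ h) ∧ (∀ g ∈ lcs (FreeGroup X) q, δ g = 0) := by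
  obtain ⟨δ, hδ1, hδ2⟩ := hder ((Module.toAddMonoidEnd R R).toMonoidHom.comp θ) lam
  have hδ : ∀ g h, δ (g * h) = δ g + θ g * δ h := hδ2
  refine ⟨δ, hδ1, hδ, ?_⟩
  have hone : δ 1 = 0 := by
    have h := hδ 1 1
    rw [mul_one, map_one, one_mul] at h
    exact left_eq_add.1 h
  have hmul : ∀ {i j : ℕ} {a b : R}, a ∈ J ^ i → b ∈ J ^ j → a * b ∈ J ^ (i + j) := by
    intro i j a b ha hb
    rw [Ideal.IsTwoSided.pow_add]
    exact Ideal.mul_mem_mul ha hb
  have hmono : ∀ i, J ^ (i + 1) ≤ J ^ i := by
    intro i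
    rw [Ideal.IsTwoSided.pow_add]
    exact Ideal.mul_le_left
  have hJ1 : ∀ g, θ g - 1 ∈ J ^ 1 := fun g => by rw [Submodule.pow_one]; exact hθ g
  have hinv : ∀ g, θ g * θ g⁻¹ = 1 := fun g => by rw [← map_mul, mul_inv_cancel, map_one]
  have key : ∀ i, ∀ w ∈ lcs (FreeGroup X) i, θ w - 1 ∈ J ^ (i + 1) ∧ δ w ∈ J ^ i := by
    intro i
    induction i with
    | zero =>
      intro w _
      refine ⟨hJ1 w, ?_⟩
      rw [Submodule.pow_zero, Ideal.one_eq_top]
      trivial
    | succ i ih =>
      let S : Subgroup (FreeGroup X) :=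
        { carrier := {w | θ w - 1 ∈ J ^ (i + 1 + 1) ∧ δ w ∈ J ^ (i + 1)}
          one_mem' := by
            constructor
            · rw [map_one, sub_self]; exact Ideal.zero_mem _
            · rw [hone]; exact Ideal.zero_mem _
          mul_mem' := by
            rintro a b ⟨ha1, ha2⟩ ⟨hb1, hb2⟩
            constructor
            · have h : θ (a * b) - 1 = (θ a - 1) * θ b + (θ b - 1) := by
                rw [map_mul]; noncomm_ring
              rw [h]
              exact Ideal.add_mem _ (Ideal.mul_mem_right _ _ ha1) hb1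
            · rw [hδ]
              exact Ideal.add_mem _ ha2 (Ideal.mul_mem_left _ _ hb2)
          inv_mem' := by
            rintro a ⟨ha1, ha2⟩
            constructor
            · have h : θ a⁻¹ - 1 = -((θ a - 1) * θ a⁻¹) := by
                rw [sub_mul, hinv, one_mul, neg_sub]
              rw [h]
              exact neg_mem (Ideal.mul_mem_right _ _ ha1)
            · have h := hδ a⁻¹ a
              rw [inv_mul_cancel, hone] at h
              rw [eq_neg_of_add_eq_zero_left h.symm]
              exact neg_mem (Ideal.mul_mem_left _ _ ha2) }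
      have hle : lcs (FreeGroup X) (i + 1) ≤ S := by
        show ⁅lcs (FreeGroup X) i, (⊤ : Subgroup (FreeGroup X))⁆ ≤ S
        rw [Subgroup.commutator_le]
        intro u hu v _
        obtain ⟨hu1, hu2⟩ := ih u hu
        have hc : ⁅u, v⁆ * (v * u) = u * v := by
          rw [commutatorElement_def]; group
        have hθc : θ ⁅u, v⁆ * θ (v * u) = θ (u * v) := by rw [← map_mul, hc]
        have h1 : θ ⁅u, v⁆ - 1 =
            ((θ u - 1) * (θ v - 1) - (θ v - 1) * (θ u - 1)) * θ (v * u)⁻¹ := by
          have h2 : (θ u - 1) * (θ v - 1) - (θ v - 1) * (θ u - 1) =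
              θ (u * v) - θ (v * u) := by
            rw [map_mul, map_mul]; noncomm_ring
          rw [h2, ← hθc, sub_mul, mul_assoc, hinv, mul_one]
        have h3 : θ ⁅u, v⁆ - 1 ∈ J ^ (i + 1 + 1) := by
          rw [h1]
          apply Ideal.mul_mem_right
          apply Ideal.sub_mem
          · exact hmul hu1 (hJ1 v)
          · have := hmul (hJ1 v) hu1
            rwa [show 1 + (i + 1) = i + 1 + 1 by omega] at this
        refine ⟨h3, ?_⟩
        have h4 : δ ⁅u, v⁆ = ((θ u - 1) * δ v - (θ v - 1) * δ u) -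
            (θ ⁅u, v⁆ - 1) * δ (v * u) := by
          have h5 := hδ ⁅u, v⁆ (v * u)
          rw [hc] at h5
          have h6 : δ ⁅u, v⁆ = δ (u * v) - θ ⁅u, v⁆ * δ (v * u) := by
            rw [h5, add_sub_cancel_right]
          rw [h6, hδ u v, hδ v u]
          noncomm_ring
        rw [h4]
        apply Ideal.sub_mem
        · apply Ideal.sub_mem
          · exact Ideal.mul_mem_right _ _ hu1
          · have := hmul (hJ1 v) hu2
            rwa [show 1 + i = i + 1 by omega] at this
        · exact hmono _ (Ideal.mul_mem_right _ _ h3)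
      intro w hw
      exact hle hw
  intro g hg
  have h := (key q g hg).2
  rw [hJ] at h
  exact h

end Pool.Agent.Helper87.PC
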